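import Pool.Agent.H74.CD.Stm

/-!
# Project OD (MP_79abb3_an): ducts with a controlled side

THEOREM. In the part `0 ≤ x_0 ≤ A` of the half channel with the three no-slip walls `x_0 = 0`, `x_1 = 0`, `x_1 = B` every
parallel flow `(0, 0, w₀(x_0, x_1))`, `w₀` an arbitrary square integrable function of two variables, is brought to rest
in arbitrarily short time by a parallel solution of the Navier-Stokes equations with zero pressure (control on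
the side `x_0 = A` and on the ends). In closed ducts (four walls) this is false already for Poiseuille flow (project CD).

CONSTRUCTION. Let `Y > A`, extend `w₀` by zero to `(0,Y) x (0,B)`, `b k n` its double sine coefficients,
`κ_k = (k+1) π/Y`, `ν_n = (n+1) π/B`. For every `n` let `z_n(t,x)` be the controlled solution of `z_t = z_xx` on `|x| < Y`
which is `∑ b k n e^{-κ_k² t} sin(κ_k x)` for `t ≤ T/2` and `0` for `t ≥ T`:
`z_n = ∑_i (θ g_n)^{(i)}(t) x^{2i+1}/(2i+1)!`, `g_n(t) = ∑ b k n κ_k e^{-κ_k² t}`, `θ` a cut-off function of Gevrey order 2. Then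
`w(t,x,y) = ∑_n z_n(t,x) e^{-ν_n² t} sin(ν_n y)`.

Every stub: file `Pool/Agent/H74/OD/T/NAME.lean`, `import Pool.Agent.H74.OD.Stm`, namespace
`Pool.Agent.H74.OD.T.NAME`, `theorem main : S_NAME` (used stubs as hypotheses).
-/

set_option autoImplicit false

namespace Pool.Agent.H74.OD

open MeasureTheory Filter Topology Set
open scoped ENNReal

/-- frequency of number `k` of the interval of length `Y` -/
noncomputable def kap (Y : ℝ) (k : ℕ) : ℝ := (k + 1) * Real.pi / Y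

/-- the rectangle -/
def Rec (Y B : ℝ) : Set (ℝ × ℝ) := Ioo 0 Y ×ˢ Ioo 0 B

/-- double sine coefficient -/
noncomputable def bc (Y B : ℝ) (v : ℝ × ℝ → ℝ) (k n : ℕ) : ℝ :=
  4 / (Y * B) * ∫ q in Rec Y B, v q * (Real.sin (kap Y k * q.1) * Real.sin (kap B n * q.2))

/-- controlled solution in one space dimension, `t > 0`, `|x| < Y` -/
structure One (Y T : ℝ) (b : ℕ → ℝ) (z zt zx zxx : ℝ → ℝ → ℝ) : Prop where
  dt : ∀ t x, 0 < t → |x| < Y → HasDerivAt (fun s => z s x) (zt t x) t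
  dx : ∀ t x, 0 < t → |x| < Y → HasDerivAt (fun y => z t y) (zx t x) x
  dxx : ∀ t x, 0 < t → |x| < Y → HasDerivAt (fun y => zx t y) (zxx t x) x
  eq : ∀ t x, 0 < t → |x| < Y → zt t x = zxx t x
  cz : ContinuousOn (fun q : ℝ × ℝ => z q.1 q.2) {q | 0 < q.1 ∧ |q.2| < Y}
  cx : ContinuousOn (fun q : ℝ × ℝ => zx q.1 q.2) {q | 0 < q.1 ∧ |q.2| < Y}
  cxx : ContinuousOn (fun q : ℝ × ℝ => zxx q.1 q.2) {q | 0 < q.1 ∧ |q.2| < Y}
  zero : ∀ t, 0 < t → z t 0 = 0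
  early : ∀ t x, 0 < t → t ≤ T / 2 → |x| < Y →
    z t x = ∑' k : ℕ, b k * Real.exp (-(kap Y k ^ 2 * t)) * Real.sin (kap Y k * x)
  earlyx : ∀ t x, 0 < t → t ≤ T / 2 → |x| < Y →
    zx t x = ∑' k : ℕ, b k * Real.exp (-(kap Y k ^ 2 * t)) * (kap Y k * Real.cos (kap Y k * x))
  late : ∀ t x, T ≤ t → |x| < Y → z t x = 0

/-- **ONED** (250 lines, the only long one). Control in one dimension with bounds that do not depend on the
coefficients `b`, `|b k| ≤ M`. ADAPT the library files (in `Pool/Agent/H72/Lib/S3997/NC/`, on main: `Jet.lean`,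
`Flat.lean`, `Free.lean`; you may import them): `z = FO (cj (2Y) T Y a)` with `a k = b (k-1) * om (2Y) k` for `k ≥ 1`, `a k = 0` for
`k ≤ 0`, `om (2Y) k = k π/Y`; `zx = FE (cj ..)`, `zt = zxx = FO (sh (cj ..))`: `cj_good`, `FO_dt`, `FO_dy`, `FE_dy`, `smooth_FO`, `FO_zero`,
`cj_left`, `FO_fr`, `FE_fr`, `cj_right`, `FO_of_zero`. Uniformity: in `fr_bd` and `Bd.mul` the constant depends on `a` only through `M`
(repeat the computation of `cj_good` with the explicit constant); the series are then bounded by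
`∑ C r^i (2i)! Y₁^{2i+1}/(2i+1)!`, `r Y² = 1/2`. (`|a k| ≤ M |om k| ≤ M (1 + lam k)`.) -/
def S_ONED : Prop := ∀ Y T M : ℝ, 0 < Y → 0 < T → 0 < M → ∃ C : ℝ → ℝ → ℝ, ∀ b : ℕ → ℝ, (∀ k, |b k| ≤ M) →
  ∃ z zt zx zxx : ℝ → ℝ → ℝ, One Y T b z zt zx zxx ∧ ∀ t₁ Y₁ : ℝ, 0 < t₁ → 0 < Y₁ → Y₁ < Y →
    ∀ t x : ℝ, t₁ ≤ t → |x| ≤ Y₁ →
      |z t x| ≤ C t₁ Y₁ ∧ |zx t x| ≤ C t₁ Y₁ ∧ |zxx t x| ≤ C t₁ Y₁

/-- solution in two space dimensions, `t > 0`, `|x| < Y`, `y` real -/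
structure Two (Y B T : ℝ) (b : ℕ → ℕ → ℝ) (w wt wx wy wxx wyy wxy : ℝ → ℝ → ℝ → ℝ) : Prop where
  dt : ∀ t x y, 0 < t → |x| < Y → HasDerivAt (fun s => w s x y) (wt t x y) t
  dx : ∀ t x y, 0 < t → |x| < Y → HasDerivAt (fun s => w t s y) (wx t x y) x
  dy : ∀ t x y, 0 < t → |x| < Y → HasDerivAt (fun s => w t x s) (wy t x y) y
  dxx : ∀ t x y, 0 < t → |x| < Y → HasDerivAt (fun s => wx t s y) (wxx t x y) x
  dyy : ∀ t x y, 0 < t → |x| < Y → HasDerivAt (fun s => wy t x s) (wyy t x y) y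
  dxy : ∀ t x y, 0 < t → |x| < Y → HasDerivAt (fun s => wx t x s) (wxy t x y) y
  dyx : ∀ t x y, 0 < t → |x| < Y → HasDerivAt (fun s => wy t s y) (wxy t x y) x
  eq : ∀ t x y, 0 < t → |x| < Y → wt t x y = wxx t x y + wyy t x y
  ct : ContinuousOn (fun q : ℝ × ℝ × ℝ => wt q.1 q.2.1 q.2.2) {q | 0 < q.1 ∧ |q.2.1| < Y}
  cx : ContinuousOn (fun q : ℝ × ℝ × ℝ => wx q.1 q.2.1 q.2.2) {q | 0 < q.1 ∧ |q.2.1| < Y}
  cy : ContinuousOn (fun q : ℝ × ℝ × ℝ => wy q.1 q.2.1 q.2.2) {q | 0 < q.1 ∧ |q.2.1| < Y}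
  cxx : ContinuousOn (fun q : ℝ × ℝ × ℝ => wxx q.1 q.2.1 q.2.2) {q | 0 < q.1 ∧ |q.2.1| < Y}
  cyy : ContinuousOn (fun q : ℝ × ℝ × ℝ => wyy q.1 q.2.1 q.2.2) {q | 0 < q.1 ∧ |q.2.1| < Y}
  cxy : ContinuousOn (fun q : ℝ × ℝ × ℝ => wxy q.1 q.2.1 q.2.2) {q | 0 < q.1 ∧ |q.2.1| < Y}
  wall : ∀ t x y, 0 < t → |x| < Y → (x = 0 ∨ y = 0 ∨ y = B) → w t x y = 0
  early : ∀ t x y, 0 < t → t ≤ T / 2 → |x| < Y → w t x y = ∑' p : ℕ × ℕ,
    b p.1 p.2 * Real.exp (-((kap Y p.1 ^ 2 + kap B p.2 ^ 2) * t)) *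
      (Real.sin (kap Y p.1 * x) * Real.sin (kap B p.2 * y))
  earlyx : ∀ t x y, 0 < t → t ≤ T / 2 → |x| < Y → wx t x y = ∑' p : ℕ × ℕ,
    b p.1 p.2 * Real.exp (-((kap Y p.1 ^ 2 + kap B p.2 ^ 2) * t)) *
      (kap Y p.1 * Real.cos (kap Y p.1 * x) * Real.sin (kap B p.2 * y))
  earlyy : ∀ t x y, 0 < t → t ≤ T / 2 → |x| < Y → wy t x y = ∑' p : ℕ × ℕ,
    b p.1 p.2 * Real.exp (-((kap Y p.1 ^ 2 + kap B p.2 ^ 2) * t)) *
      (Real.sin (kap Y p.1 * x) * (kap B p.2 * Real.cos (kap B p.2 * y)))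
  late : ∀ t x y, T ≤ t → |x| < Y → w t x y = 0

/-- **TWO** (200 lines). `theorem main (h : S_ONED) : S_TWO`.
PROOF. `z_n` from ONED for `k ↦ b k n`; `w = ∑' n, z_n(t,x) e^{-ν_n² t} sin(ν_n y)`, `wx = ∑' zx_n ..`, `wxx`, `wy = ∑' z_n e^{..} ν_n cos`,
`wyy = -∑' ν_n² ..`, `wxy`, `wt = wxx + wyy`. On `t ≥ t₁`, `|x| ≤ Y₁` the terms of all these series are bounded by
`C (1 + ν_n²) e^{-ν_n² t₁}`, summable; so they are continuous (`continuousOn_tsum`) and can be differentiated term by term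
(`hasDerivAt_tsum_of_isPreconnected`, on small open intervals). For `t ≤ T/2` insert `early` and join the two sums
(`Summable.tsum_prod'`, absolutely summable: `|b| e^{-κ² t} e^{-ν² t} (1 + κ + ν)`). -/
def S_TWO : Prop := ∀ Y B T M : ℝ, 0 < Y → 0 < B → 0 < T → 0 < M → ∀ b : ℕ → ℕ → ℝ, (∀ k n, |b k n| ≤ M) →
  ∃ w wt wx wy wxx wyy wxy : ℝ → ℝ → ℝ → ℝ, Two Y B T b w wt wx wy wxx wyy wxy

/-- **PAR** (150 lines). Parseval for double sine series.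
PROOF. The functions `sin(κ_k x) sin(ν_n y)` are orthogonal in `L²(Rec Y B)` with square norm `Y B/4`, and complete: if
`v ∈ L²` is orthogonal to all of them it is orthogonal to `sin(πx/Y) sin(πy/B) q(cos(πx/Y), cos(πy/B))` for all polynomials `q`
(`sin((k+1)θ) = U_k(cos θ) sin θ`, or see `Pool/Agent/H74/CD/T/CPL1.lean`), hence (Stone-Weierstrass on the compact
rectangle) to `sin sin φ` for all continuous `φ`, so `v sin sin = 0` a.e. (`ae_eq_zero_of_integral_contDiff_smul_eq_zero` or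
density of continuous functions in `L²`). `HilbertBasis.mk`, `HilbertBasis.hasSum_inner_mul_inner` or `hasSum_repr`/
`Orthonormal.tsum_inner_products_le` + completeness. -/
def S_PAR : Prop := ∀ (Y B : ℝ) (v : ℝ × ℝ → ℝ), 0 < Y → 0 < B → MemLp v 2 (volume.restrict (Rec Y B)) →
  HasSum (fun p : ℕ × ℕ => Y * B / 4 * bc Y B v p.1 p.2 ^ 2) (∫ q in Rec Y B, v q ^ 2)

/-- **BDB** (30 lines). Bounded coefficients: `|bc| ≤ 4/(YB) ∫|v|`, and `L² ⊂ L¹` on a bounded set. -/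
def S_BDB : Prop := ∀ (Y B : ℝ) (v : ℝ × ℝ → ℝ), 0 < Y → 0 < B → MemLp v 2 (volume.restrict (Rec Y B)) →
  ∃ M : ℝ, 0 < M ∧ ∀ k n, |bc Y B v k n| ≤ M

/-- **INI** (130 lines). `theorem main (h : S_PAR) : S_INI`.
PROOF. For `t > 0` the series `W t` converges uniformly, its coefficients are `bc v k n e^{-(..)t}` (orthogonality of the
sines, integrate term by term); so those of `W t - v` are `bc (e^{-μt} - 1)`; PAR:
`∫ (W t - v)² = ∑ YB/4 bc² (1 - e^{-μt})² → 0` (`tendsto_tsum_of_dominated_convergence`, dominated by `YB/4 bc²`). Pass to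
`lintegral` by `ofReal_integral_eq_lintegral_ofReal`. -/
def S_INI : Prop := ∀ (Y B : ℝ) (v : ℝ × ℝ → ℝ), 0 < Y → 0 < B → MemLp v 2 (volume.restrict (Rec Y B)) →
  Tendsto (fun t : ℝ => ∫⁻ q in Rec Y B, ‖(∑' p : ℕ × ℕ,
    bc Y B v p.1 p.2 * Real.exp (-((kap Y p.1 ^ 2 + kap B p.2 ^ 2) * t)) *
      (Real.sin (kap Y p.1 * q.1) * Real.sin (kap B p.2 * q.2))) - v q‖ₑ ^ 2) (𝓝[>] 0) (𝓝 0)

/-- **DIS** (150 lines). Finite dissipation. `theorem main (h : S_PAR) : S_DIS`.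
PROOF. For `t > 0`: `∫ Wx² = YB/4 ∑ bc² κ² e^{-2μt}` (`cos(κ_k x) sin(ν_n y)` orthogonal, uniformly convergent series; `≤` is
enough: or bound finite partial sums and use Fatou), the same for `Wy` with `ν²`. `∫_0^∞ (κ²+ν²) e^{-2μt} dt = 1/2`. So the total is
at most `YB/8 ∑ bc² < ∞` (PAR). Tonelli for `lintegral` and `tsum` (`lintegral_tsum`). -/
def S_DIS : Prop := ∀ (Y B : ℝ) (v : ℝ × ℝ → ℝ), 0 < Y → 0 < B → MemLp v 2 (volume.restrict (Rec Y B)) →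
  ∫⁻ t in Ioi (0 : ℝ), ∫⁻ q in Rec Y B,
    (‖∑' p : ℕ × ℕ, bc Y B v p.1 p.2 * Real.exp (-((kap Y p.1 ^ 2 + kap B p.2 ^ 2) * t)) *
      (kap Y p.1 * Real.cos (kap Y p.1 * q.1) * Real.sin (kap B p.2 * q.2))‖ₑ ^ 2 +
    ‖∑' p : ℕ × ℕ, bc Y B v p.1 p.2 * Real.exp (-((kap Y p.1 ^ 2 + kap B p.2 ^ 2) * t)) *
      (Real.sin (kap Y p.1 * q.1) * (kap B p.2 * Real.cos (kap B p.2 * q.2)))‖ₑ ^ 2) < ⊤

/-! ## The Navier-Stokes equations -/

open Pool.Agent.H74.CD (pd Duct)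

/-- `u` is a parallel solution of the Navier-Stokes equations with zero pressure in `0 ≤ x_0 ≤ A`, `t > 0` (regular in a
neighbourhood `N`), zero on the walls `x_0 = 0`, `x_1 = 0`, `x_1 = B`, at rest for `t ≥ T`, with initial velocity
`(0, 0, w₀ (x_0, x_1))` and finite total dissipation in every piece `(0,A) x (0,B) x (-c,c)`. -/
structure Open3 (A B T : ℝ) (w₀ : ℝ × ℝ → ℝ) (u : ℝ → (Fin 3 → ℝ) → (Fin 3 → ℝ)) : Prop where
  regular : ∃ N : Set (Fin 3 → ℝ), IsOpen N ∧ {x | 0 ≤ x 0 ∧ x 0 ≤ A} ⊆ N ∧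
    ContDiffOn ℝ 1 (fun q : ℝ × (Fin 3 → ℝ) => u q.1 q.2) (Ioi 0 ×ˢ N) ∧
    (∀ t, 0 < t → ContDiffOn ℝ 2 (u t) N) ∧
    ∀ i k : Fin 3, ContinuousOn
      (fun q : ℝ × (Fin 3 → ℝ) => pd i (fun y => pd i (fun z => u q.1 z k) y) q.2) (Ioi 0 ×ˢ N)
  axial : ∀ t x, u t x 0 = 0 ∧ u t x 1 = 0
  momentum : ∀ t, 0 < t → ∀ x : Fin 3 → ℝ, 0 ≤ x 0 → x 0 ≤ A → ∀ k : Fin 3,
    deriv (fun s => u s x k) t + ∑ i, u t x i * pd i (fun y => u t y k) x =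
      ∑ i, pd i (fun y => pd i (fun z => u t z k) y) x
  div : ∀ t, 0 < t → ∀ x : Fin 3 → ℝ, 0 ≤ x 0 → x 0 ≤ A → ∑ i, pd i (fun y => u t y i) x = 0
  wall : ∀ t, 0 < t → ∀ x : Fin 3 → ℝ, 0 ≤ x 0 → x 0 ≤ A → (x 0 = 0 ∨ x 1 = 0 ∨ x 1 = B) → u t x = 0
  rest : ∀ t, T ≤ t → ∀ x : Fin 3 → ℝ, 0 ≤ x 0 → x 0 ≤ A → u t x = 0
  initial : ∀ c, 0 < c → Tendsto (fun t => ∫⁻ x in Duct A B c, ‖u t x 2 - w₀ (x 0, x 1)‖ₑ ^ 2)
    (𝓝[>] 0) (𝓝 0)
  energy : ∀ c, 0 < c → ∫⁻ t in Ioi (0 : ℝ), ∫⁻ x in Duct A B c,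
    ∑ i, ∑ k, ‖pd i (fun y => u t y k) x‖ₑ ^ 2 < ⊤

/-- the parallel flow with axial velocity `w` -/
def par (w : ℝ → ℝ → ℝ → ℝ) (t : ℝ) (x : Fin 3 → ℝ) : Fin 3 → ℝ := ![0, 0, w t (x 0) (x 1)]

/-- **NSP** (150 lines). Partial derivatives of the parallel flow, and its regularity, for a solution `Two`, `|x 0| < Y`.
PROOF. `w t` is differentiable at `(x 0, x 1)` (continuous partial derivatives), chain rule with the projections;
`pd 0 (u_2) = wx`, `pd 1 (u_2) = wy`, `pd 2 (u_2) = 0`; the functions `pd i (..)` agree near `x` (open set), so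
`pd 0 (pd 0 u_2) = wxx` etc. `ContDiffOn ℝ 1` of `(t,x,y) ↦ w t x y`: all first partials exist and are continuous
(`contDiffOn_one_iff_fderiv...`; the derivative is the obvious linear map, continuous: `hasStrictFDerivAt` from continuous
partials, or `HasFDerivAt` by the mean value theorem); `ContDiffOn ℝ 2 (w t)`: the same for `wx`, `wy`. -/
def S_NSP : Prop := ∀ (Y B T : ℝ) (b : ℕ → ℕ → ℝ) (w wt wx wy wxx wyy wxy : ℝ → ℝ → ℝ → ℝ), 0 < Y →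
  Two Y B T b w wt wx wy wxx wyy wxy →
  ContDiffOn ℝ 1 (fun q : ℝ × (Fin 3 → ℝ) => par w q.1 q.2) (Ioi 0 ×ˢ {x : Fin 3 → ℝ | |x 0| < Y}) ∧
  (∀ t, 0 < t → ContDiffOn ℝ 2 (par w t) {x : Fin 3 → ℝ | |x 0| < Y}) ∧
  ∀ t, 0 < t → ∀ x : Fin 3 → ℝ, |x 0| < Y →
    (pd 0 (fun y => par w t y 2) x = wx t (x 0) (x 1) ∧ pd 1 (fun y => par w t y 2) x = wy t (x 0) (x 1) ∧
      pd 2 (fun y => par w t y 2) x = 0) ∧
    (∀ i k : Fin 3, k ≠ 2 → pd i (fun y => par w t y k) x = 0) ∧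
    pd 0 (fun y => pd 0 (fun z => par w t z 2) y) x = wxx t (x 0) (x 1) ∧
    pd 1 (fun y => pd 1 (fun z => par w t z 2) y) x = wyy t (x 0) (x 1) ∧
    pd 2 (fun y => pd 2 (fun z => par w t z 2) y) x = 0

/-- **FUB** (80 lines). Functions of `(x 0, x 1)` on the piece of the duct: `∫⁻ over Duct A B c = 2c ∫⁻ over Rec A B`.
(`MeasurableEquiv` `Fin 3 → ℝ ≃ᵐ ℝ × (ℝ × ℝ)` or `≤` by `volume_preserving_piFinSuccAbove`.) -/
def S_FUB : Prop := ∀ (A B c : ℝ) (G : ℝ × ℝ → ℝ≥0∞), 0 < c →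
  AEMeasurable G (volume.restrict (Rec A B)) →
  ∫⁻ x in Duct A B c, G (x 0, x 1) = ENNReal.ofReal (2 * c) * ∫⁻ q in Rec A B, G q

/-- **FIN** (200 lines). `theorem main (ht : S_TWO) (hb : S_BDB) (hi : S_INI) (hd : S_DIS) (hp : S_NSP) (hf : S_FUB) : S_FIN`.
PROOF. `Y = A + 1`, `v` = `w₀` extended by zero to `Rec Y B`, `b = bc Y B v`, `u = par w`. `initial`: for `t ≤ T/2`, `early`, FUB, INI,
`Rec A B ⊆ Rec Y B`. `energy`: `t < T/2` by `earlyx`, `earlyy`, FUB, DIS; `T/2 ≤ t ≤ T`: `wx`, `wy` are continuous, hence bounded on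
`[T/2,T] x [0,A] x [0,B]`; `t > T`: `u = 0`. -/
def S_FIN : Prop := ∀ (A B T : ℝ) (w₀ : ℝ × ℝ → ℝ), 0 < A → 0 < B → 0 < T →
  MemLp w₀ 2 (volume.restrict (Rec A B)) → ∃ u : ℝ → (Fin 3 → ℝ) → (Fin 3 → ℝ), Open3 A B T w₀ u

end Pool.Agent.H74.OD
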